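import Mathlib
import Pool.Agent.U757.RT.Dim
import Pool.Agent.U757.RT.Small

/-!
# Closures of groups of rational points of simple tori, by the real rank

Let `A` be a torus over `ℚ` of dimension `d`, given by a finite Galois extension `K` of `ℚ` in `ℂ`
and the group `X` of its characters, a free abelian group of rank `d` with an action of
`Gal(K / ℚ)`. So `A(ℂ) = Hom(X, ℂˣ)`, `A(ℝ)` is the group of the `u` with `u (c χ)` the complex
conjugate of `u χ`, where `c` is the complex conjugation, and `A(ℚ)` consists of the Galois
equivariant `u` with values in `K`. The real rank `r` of `A` is the rank of the group of characters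
defined over `ℝ`.

Let `L` be a subgroup of `A(ℚ)`. We assume that `A` is simple over `ℚ`, or that `A` is any torus (for
instance `R_{F/ℚ}(G_m)`) and every element of infinite order of `L` generates a Zariski dense
subgroup of `A`. We prove:

(0) if `L` contains `l` multiplicatively independent elements, then the codimension `m` of the
    closure of `L` in `A(ℝ)` satisfies `m (l - r) ≤ r ^ 2`;
(1) if the rank of `L` is larger than `r ^ 2 + r`, the closure of `L` has finite index in `A(ℝ)`;
(2) if `L` is finitely generated of rank at most `l`, where `l (l - 1) < r` or `l = 0`, then `L` is
    discrete;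
(3) so, if `r ≤ 1`, `L` is finitely generated and not (`r = 1` and `L` of rank `2`), then `L` is
    discrete or its closure has finite index in `A(ℝ)`, the expected answer.

These bounds do not depend on the dimension of `A`. For example, for a simple torus of real rank one
(such as the norm one torus of a complex cubic or a totally complex quartic field, or the torus of
relative norm one elements of a quadratic extension of a totally real field of any degree `d` in
which exactly one real place splits) the closure has finite index in `A(ℝ)` as soon as the rank of
`L` is at least three, and codimension at most one if the rank is two.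

The proof: by the closed subgroup theorem there are `m` independent linear forms on the Lie algebra
with integral values on the logarithms of the elements of `L` and on the kernel of the exponential
map. The part of such a form on the compact directions is a character `χ`, and
`u χ = exp (2 π i ∑ s_k log |u e_k|)` for all squares `u` of elements of `L`, where `e_1, …, e_r` is a
basis of the group of real characters and `s_k` are real numbers. So the matrix of the `log |u_j e_k|`
and suitable `log (u_j χ)` has a small rank, in contradiction to the linear subgroup theorem of
Waldschmidt (in the starting library).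
-/

set_option autoImplicit false

namespace Pool.Agent.Results.MP_7de521_nt.ClosuresByRealRank

open Pool.Agent.U757.RT

/-- **Main result.** -/
theorem result (K : IntermediateField ℚ ℂ) [FiniteDimensional ℚ K] [IsGalois ℚ K] (X : Type)
    [AddCommGroup X] [Module.Free ℤ X] [Module.Finite ℤ X] [DistribMulAction (K ≃ₐ[ℚ] K) X]
    (L : Subgroup (X → ℂˣ)) (hL : L ≤ rationalPoints K X)
    (hA : IsSimple K X ∨ ZariskiDenseElements L) :
    (∃ m : ℕ, ClosureOfCodimension X L m ∧
      ∀ l : ℕ, RankAtLeast L l → m * l ≤ m * realRank K X + realRank K X ^ 2) ∧
    (RankAtLeast L (realRank K X ^ 2 + realRank K X + 1) → ClosureOfFiniteIndex K X L) ∧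
    (L.FG → ∀ l : ℕ, (l * (l - 1) < realRank K X ∨ l = 0) → ¬ RankAtLeast L (l + 1) →
      DiscreteTopology L) ∧
    (realRank K X ≤ 1 → L.FG → (realRank K X = 1 → RankAtLeast L 2 → RankAtLeast L 3) →
      DiscreteTopology L ∨ ClosureOfFiniteIndex K X L) := by
  classical
  have hA' : ZariskiDenseElements L := hA.elim (fun h => dense_of_simple h hL) id
  have h1 : RankAtLeast L (realRank K X ^ 2 + realRank K X + 1) → ClosureOfFiniteIndex K X L :=
    fun h => ⟨closure_le hL,
      finite_index (Module.Free.chooseBasis ℤ X) _ fun v => main_lie _ hA' hL h v⟩
  have h2 : L.FG → ∀ l : ℕ, (l * (l - 1) < realRank K X ∨ l = 0) → ¬ RankAtLeast L (l + 1) →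
      DiscreteTopology L := fun hfg l hl hs => discrete_small hA' hL hfg hl hs
  refine ⟨codim_final hA' hL, h1, h2, fun hr hfg h => ?_⟩
  by_cases hs : RankAtLeast L (realRank K X + 1)
  · right
    apply h1
    rcases Nat.lt_or_ge (realRank K X) 1 with h0 | h0
    · have h3 : realRank K X = 0 := by omega
      rw [h3] at hs ⊢
      exact hs
    · have h3 : realRank K X = 1 := by omega
      rw [h3] at hs ⊢
      exact h h3 hs
  · left
    refine h2 hfg _ ?_ hs
    rcases Nat.lt_or_ge (realRank K X) 1 with h0 | h0
    · right; omega
    · left
      have h3 : realRank K X = 1 := by omega
      rw [h3]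
      norm_num

end Pool.Agent.Results.MP_7de521_nt.ClosuresByRealRank
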