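import Pool.Agent.U536.CF.TU
import Pool.Agent.N733.TG.I
import Pool.Agent.U951.TR.MatD

/-!
# The expected answer for groups whose exponents have large common factors with the values of multiplicative functions

For all degrees `n` and all `l ≥ 1` there is `c` such that the following holds for all `N > c`. Let `F_i` (`i` from `1` to
`l N`) be positive multiplicative functions of at most polynomial growth such that `F_i q ≤ M q` for the large primes `q`,
with different values at different large primes; for example Euler's function or the sum of the divisors. Let `l N (1 -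
ρ) < N - c`, `0 < ρ ≤ 1`; for `l = 1` and large `N` the number `ρ > 0` may be arbitrarily small. Let `b < 1` and `0 ≤ s
< 2 b - 1`. For all tuples `m` in `[1, x] ^ (l N)` but `x ^ (l N) exp (-(log x) ^ s)`, for EVERY `l × N` matrix `e` of
integers `|e_i| ≥ exp ((log x) ^ b)` such that `gcd(e_i, F_i(m_i)) ≥ |e_j| ^ ρ` for all `i`, `j`: the closures of ALL
subgroups of the group generated by the `l` elements `∏_x γ_x ^ (e_{i x})` are as expected,

* in the real points of `A = R_{K/ℚ}(G_m)`, for all number fields `K` of degree `n` and all `γ_1, …, γ_N` with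
  multiplicatively independent conjugates, and of the norm one torus, for all admissible `γ_x` (`n ≥ 2`);
* in the `p`-adic points of these tori, for every prime number `p`,

uniformly in `K` and in the `γ_x`. The matrices include all matrices of large divisors `± e_i` of the `F_i(m_i)` of
comparable size and their multiples by small integers.

Proof. The starting theorems of this problem bound the number of the exceptional matrices with entries up to `X` by `C X
^ ((l - 1) N + c)` (`Pool.Agent.U951.TR.MatD`). The tool `Pool.Agent.U536.CF` of helper536 bounds the number of the `m`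
for which such an exceptional matrix exists (the number of the ordered factorizations, Hölder's inequality).
-/

set_option autoImplicit false

namespace Pool.Agent.Results.MP_7de521_nt.CommonFactors

open Pool.Agent.N733.TG (LM lm_totient lm_sigma)
open Pool.Agent.U536.CF (CommonT avoidT commonT_of_dvd)
open Pool.Agent.U951.TR.Mat

/-- For all large `x`, uniformly in the parameter `v`, for all `m` in `[1, x] ^ k` but at most `x ^ k exp (-(log x) ^ s)`,
the property `P v` holds for EVERY tuple `w` of integers `w_i ≥ exp ((log x) ^ b)` with `gcd(w_i, F_i(m_i)) ≥ w_j ^ ρ` for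
all `i`, `j` (`CommonT`). -/
def AllCommon {ι : Sort*} {k : ℕ} (F : Fin k → ℕ → ℕ) (ρ b s : ℝ) (P : ι → (Fin k → ℕ) → Prop) : Prop :=
  ∃ x₀ : ℕ, ∀ x : ℕ, x₀ ≤ x → ∀ v : ι,
    ({m : Fin k → ℕ | (∀ i, 1 ≤ m i ∧ m i ≤ x) ∧ ¬ ∀ w : Fin k → ℕ, CommonT F b ρ x m w → P v w}.ncard : ℝ) ≤
      (x : ℝ) ^ k * Real.exp (-(Real.log x ^ s))

lemma allCommon_of {ι : Sort*} {l N c : ℕ} (hk : 1 ≤ l * N) {F : Fin (l * N) → ℕ → ℕ} (hF : ∀ i, LM (F i))
    {ρ b s : ℝ} (hρ0 : 0 < ρ) (hρ1 : ρ ≤ 1) (hρ : ((l * N : ℕ) : ℝ) * (1 - ρ) < (N : ℝ) - c) (hb : b < 1) (hs : 0 ≤ s)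
    (hsb : s < 2 * b - 1) {P : ι → (Fin (l * N) → ℕ) → Prop} (h : Few l N c P) : AllCommon F ρ b s P := by
  obtain ⟨C, hC⟩ := h
  obtain ⟨x₀, hx₀⟩ := avoidT hk hF hρ0 hρ1 hρ C hb hs hsb
  refine ⟨x₀, fun x hx v => le_trans (le_of_eq ?_) (hx₀ x hx {w | ¬ P v w} (hC v))⟩
  congr 2
  ext m
  simp only [Set.mem_ofPred_eq]
  push Not
  refine and_congr_right fun _ => ⟨?_, ?_⟩
  · rintro ⟨w, hw, h1⟩
    exact ⟨w, h1, hw⟩
  · rintro ⟨w, h1, hw⟩
    exact ⟨w, hw, h1⟩

/-- **Theorem.** For all `n` and `l ≥ 1` there is `c` such that for all `N > c`, `0 < ρ ≤ 1` with `l N (1 - ρ) < N - c`,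
`b < 1`, `0 ≤ s < 2 b - 1` and all families `F` of `l N` functions in the class `LM`, in the sense of `AllCommon`: for all
tuples `m` in `[1, x] ^ (l N)` but `x ^ (l N) exp (-(log x) ^ s)`, for EVERY tuple `w` of integers `w_i ≥ exp ((log x) ^
b)` with `gcd(w_i, F_i(m_i)) ≥ w_j ^ ρ` for all `i`, `j`, the closures of all subgroups of the groups with exponents
`± w_i` are as expected, for `R_{K/ℚ}(G_m)` and the norm one torus, in the real and (for every prime number `p`) in the
`p`-adic points, uniformly in the number field of degree `n` and in the `γ_x`. Tuples of divisors `w_i ≥ exp ((log x) ^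
b)` of the `F_i(m_i)` with `w_j ^ ρ ≤ w_i` for all `i`, `j` are such tuples. Euler's function and the sum of the
divisors are in the class. -/
theorem result :
    (∀ n l : ℕ, 1 ≤ l → ∃ c : ℕ, ∀ N : ℕ, c < N → ∀ F : Fin (l * N) → ℕ → ℕ, (∀ i, LM (F i)) →
      ∀ ρ b s : ℝ, 0 < ρ → ρ ≤ 1 → ((l * N : ℕ) : ℝ) * (1 - ρ) < (N : ℝ) - c → b < 1 → 0 ≤ s → s < 2 * b - 1 →
      AllCommon F ρ b s (fun (D : Data n N) w => Expected D w) ∧
      (2 ≤ n → AllCommon F ρ b s (fun (D : Data₁ n N) w => Expected₁ D w)) ∧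
      ∀ (p : ℕ) [Fact p.Prime], AllCommon F ρ b s (fun (D : PData p n N) w => ExpectedP D w) ∧
        AllCommon F ρ b s (fun (D : PData₁ n N) w => ExpectedP₁ p D w)) ∧
    (LM Nat.totient ∧ LM (fun m => ∑ d ∈ m.divisors, d)) ∧
    ∀ (k : ℕ) (F : Fin k → ℕ → ℕ) (b ρ : ℝ) (x : ℕ) (m w : Fin k → ℕ), (∀ i, Real.exp (Real.log x ^ b) ≤ (w i : ℝ)) →
      (∀ i, w i ∣ F i (m i)) → (∀ i j, (w j : ℝ) ^ ρ ≤ (w i : ℝ)) → CommonT F b ρ x m w := by
  refine ⟨fun n l hl => ?_, ⟨lm_totient, lm_sigma⟩, fun k F b ρ x m w h1 h2 h3 => commonT_of_dvd h1 h2 h3⟩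
  obtain ⟨c, h⟩ := counts n l hl
  refine ⟨c, fun N hN F hF ρ b s hρ0 hρ1 hρ hb hs hsb => ?_⟩
  have hk : 1 ≤ l * N := Nat.mul_pos hl (by omega)
  obtain ⟨h1, h2, h3⟩ := h N
  exact ⟨allCommon_of hk hF hρ0 hρ1 hρ hb hs hsb h1, fun hn => allCommon_of hk hF hρ0 hρ1 hρ hb hs hsb (h2 hn),
    fun p _ => ⟨allCommon_of hk hF hρ0 hρ1 hρ hb hs hsb (h3 p).1, allCommon_of hk hF hρ0 hρ1 hρ hb hs hsb (h3 p).2⟩⟩

end Pool.Agent.Results.MP_7de521_nt.CommonFactors
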