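import Pool.Agent.U449.BV.VW
import Pool.Agent.Results.MP_7de521_nt.AlmostAllSubgroups
import Pool.Agent.Results.MP_7de521_nt.NormOneTori

/-!
# The real part of the expected answer for groups whose exponents come from polynomials on arbitrary sets

For all degrees `n` and all `l ≥ 1` there is `c` such that the following holds for all `N ≥ c`, `κ ≥ 0`, `(l - 1) N + c + l N κ < δ ≤ l N`.
Let `p` be a large prime, `f(x, y)` ANY polynomial of degree at most `d` over the field of `p ^ (l N)` elements with a monomial which
contains both variables (for example `f = x y`), let `A`, `B` be ARBITRARY subsets of this field with at least `p ^ δ` elements, and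
`g`, `h` ARBITRARY functions. For all the pairs `(a, b)` in `A × B`, apart from a proportion of at most `p ^ (-ρ)`, ALL `l × N`
matrices `m` of integers at a distance of at most `p ^ κ` from the matrix of the least residues of the `l N` coordinates of
`f(a, b) + g(a) + h(b)` have the following property: the closures of ALL subgroups of the group generated by the `l` elements
`∏_x γ_x ^ (m_{i x})` are as expected. This holds for `A = R_{K/ℚ}(G_m)` for all number fields `K` of degree `n` and all `γ_1, …, γ_N`
with multiplicatively independent conjugates, and for the norm one torus and all admissible `γ_x`, uniformly in `K` and in the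
`γ_x`. More generally, this holds for the values `F(a, b)` of all vector functions of two variables with few coincidences
(`RareV`), on arbitrary finite sets.

Since the sets and the functions `g` and `h` are arbitrary, the matrices have no arithmetic structure, and a matrix may be
taken by very many pairs. So the number of the exceptions (starting library) does not give the result directly. Proof: the
inequality of Cauchy and Schwarz; for most pairs `a, a'` the difference `F(a, b) - F(a', b)` is small for few `b`
(`Pool.Agent.U449.BV`).
-/

set_option autoImplicit false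

namespace Pool.Agent.Results.MP_7de521_nt.MixedPolynomials

open Module
open Pool.Agent.U449.BV (RareV OnProductsW NearMatrix on_matrices_sets ncard_of_sets coordinates)

/-- A number field of degree `n` and `N` elements with multiplicatively independent conjugates. -/
structure Data (n N : ℕ) where
  /-- the number field -/
  K : Type
  /-- it is a field -/
  field : Field K
  /-- it is a number field -/
  numberField : NumberField K
  /-- it has degree `n` -/
  degree : finrank ℚ K = n
  /-- the elements -/
  γ : Fin N → Kˣ
  /-- their conjugates are multiplicatively independent -/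
  independent : AlmostAllSubgroups.IndependentConjugates K γ

/-- A number field of degree `n` and `N` admissible elements of norm one. -/
structure Data₁ (n N : ℕ) where
  /-- the number field -/
  K : Type
  /-- it is a field -/
  field : Field K
  /-- it is a number field -/
  numberField : NumberField K
  /-- it has degree `n` -/
  degree : finrank ℚ K = n
  /-- the elements -/
  γ : Fin N → Kˣ
  /-- they are admissible -/
  admissible : NormOneTori.Admissible K γ

/-- All subgroups of the group generated by the `∏_x γ_x ^ (m_{i x})` have the expected closures in the real points of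
`R_{K/ℚ}(G_m)`. -/
def Expected {n l N : ℕ} (D : Data n N) (m : Fin l → Fin N → ℤ) : Prop :=
  letI := D.field
  letI := D.numberField
  AlmostAllSubgroups.ExpectedForSubgroups D.K D.γ m

/-- All subgroups of the group generated by the `∏_x γ_x ^ (m_{i x})` have the expected closures in the real points of the norm
one torus. -/
def Expected₁ {n l N : ℕ} (D : Data₁ n N) (m : Fin l → Fin N → ℤ) : Prop :=
  letI := D.field
  letI := D.numberField
  NormOneTori.ExpectedReal D.K D.γ m

/-- **Theorem.** Let `n` be a degree and `l ≥ 1`. There is `c` such that for all `N ≥ c` and `κ ≥ 0` the property that ALL matrices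
`m` near the value (up to `X ^ κ` in all entries) are as expected holds for almost all values of vector functions of two variables with
few coincidences, on arbitrary finite sets of at least `X ^ δ` elements, `(l - 1) N + c + l N κ < δ ≤ l N`, uniformly in the number
field of degree `n` and in the `γ_x`, for `R_{K/ℚ}(G_m)` and, for `n ≥ 2`, for the norm one torus.
The tuples of the least residues modulo `p` of the coordinates (with respect to a basis over the field of `p` elements) of
`f(a, b) + g(a) + h(b)` in a field of `p ^ k` elements are such a function, with `X = p`, for all polynomials `f` over this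
field with a monomial which contains both variables, arbitrary functions `g` and `h`, and arbitrary finite subsets. -/
theorem result :
    (∀ n l : ℕ, 1 ≤ l → ∃ c : ℕ, ∀ N : ℕ, c ≤ N → ∀ κ : ℝ, 0 ≤ κ →
      OnProductsW (l * N) ((((l - 1) * N + c : ℕ) : ℝ) + ((l * N : ℕ) : ℝ) * κ) κ (fun D : Data n N => NearMatrix (Expected D)) ∧
      (2 ≤ n → OnProductsW (l * N) ((((l - 1) * N + c : ℕ) : ℝ) + ((l * N : ℕ) : ℝ) * κ) κ
        (fun D : Data₁ n N => NearMatrix (Expected₁ D)))) ∧
    ∀ (p : ℕ) [Fact p.Prime] (k : ℕ) (K : Type) [Field K] [Algebra (ZMod p) K] (e : Module.Basis (Fin k) (ZMod p) K)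
      (d : ℕ) (f : MvPolynomial (Fin 2) K), f.totalDegree ≤ d → (∃ m ∈ f.support, m 0 ≠ 0 ∧ m 1 ≠ 0) →
      ∀ (g h : K → K) (A B : Finset K),
        RareV d A B (fun a b i => (((e.repr (MvPolynomial.eval ![a, b] f + g a + h b) i).val : ℕ) : ℝ)) := by
  refine ⟨fun n l hl => ?_, coordinates⟩
  obtain ⟨c₁, h₁⟩ := AlmostAllSubgroups.result n l
  obtain ⟨c₂, h₂⟩ : ∃ c₂ : ℕ, 2 ≤ n → ∀ N : ℕ, ∃ C : ℕ, ∀ D : Data₁ n N, ∀ T : ℕ,
      ({m : Fin l → Fin N → ℤ | (∀ i j, |m i j| ≤ (T : ℤ)) ∧ ¬ Expected₁ D m}.ncard : ℝ) ≤
        (C : ℝ) * ((2 * T + 1 : ℕ) : ℝ) ^ ((l - 1) * N + c₂) := by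
    by_cases hn : 2 ≤ n
    · obtain ⟨c, h⟩ := NormOneTori.result n l hn
      refine ⟨c, fun _ N => ?_⟩
      obtain ⟨C, hC⟩ := h N
      refine ⟨C, fun D T => ?_⟩
      letI := D.field
      letI := D.numberField
      exact ncard_of_sets (hC D.K D.degree D.γ D.admissible) T
    · exact ⟨0, fun h => absurd h hn⟩
  refine ⟨c₁ + c₂, fun N hN κ hκ => ⟨?_, fun hn => ?_⟩⟩
  · obtain ⟨C, hC⟩ := h₁ N
    refine on_matrices_sets hl hN _ hκ (Nat.cast_nonneg C) (fun D T hT => ?_)
    letI := D.field
    letI := D.numberField
    refine (ncard_of_sets (hC D.K D.degree D.γ D.independent) T).trans ?_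
    have h1 : (1 : ℝ) ≤ ((2 * T + 1 : ℕ) : ℝ) := by exact_mod_cast Nat.le_add_left 1 (2 * T)
    exact mul_le_mul_of_nonneg_left (pow_le_pow_right₀ h1 (by omega)) (Nat.cast_nonneg C)
  · obtain ⟨C, hC⟩ := h₂ hn N
    refine on_matrices_sets hl hN _ hκ (Nat.cast_nonneg C) (fun D T hT => (hC D T).trans ?_)
    have h1 : (1 : ℝ) ≤ ((2 * T + 1 : ℕ) : ℝ) := by exact_mod_cast Nat.le_add_left 1 (2 * T)
    exact mul_le_mul_of_nonneg_left (pow_le_pow_right₀ h1 (by omega)) (Nat.cast_nonneg C)

end Pool.Agent.Results.MP_7de521_nt.MixedPolynomials
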