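import Pool.Agent.U449.BV.VW
import Pool.Agent.Results.MP_7de521_nt.PadicAlmostAllSubgroups
import Pool.Agent.Results.MP_7de521_nt.NormOneToriPadic

/-!
# The `p`-adic part of the expected answer for groups whose exponents come from polynomials on arbitrary sets

For all degrees `n` and all `l ≥ 1` there is `c` such that the following holds for all primes `p`, all `N ≥ c`, `κ ≥ 0`,
`(l - 1) N + c + l N κ < δ ≤ l N`. Let `P` be a large prime, `f(x, y)` ANY polynomial of degree at most `d` over the field of `P ^ (l N)`
elements with a monomial which contains both variables (for example `f = x y`), let `A`, `B` be ARBITRARY subsets of this field with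
at least `P ^ δ` elements, and `g`, `h` ARBITRARY functions. For all the pairs `(a, b)` in `A × B`, apart from a proportion of at most
`P ^ (-ρ)`, ALL `l × N` matrices `m` of integers at a distance of at most `P ^ κ` from the matrix of the least residues of the `l N`
coordinates of `f(a, b) + g(a) + h(b)` have the following property: any `s ≤ dim A` multiplicatively independent elements of the group
generated by the `l` elements `∏_x γ_x ^ (m_{i x})` are independent over `ℤ_p` in `A(ℚ_p)`. This holds for `A = R_{K/ℚ}(G_m)` for all
number fields `K` of degree `n` and all `γ_1, …, γ_N` for which `p` and the conjugates of the `γ_x` are multiplicatively independent,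
and for the norm one torus and all admissible `γ_x`, uniformly in `K` and in the `γ_x`. More generally, this holds for the values
`F(a, b)` of all vector functions of two variables with few coincidences (`RareV`), on arbitrary finite sets.

Since the sets and the functions `g` and `h` are arbitrary, the matrices have no arithmetic structure, and a matrix may be
taken by very many pairs. So the number of the exceptions (starting library) does not give the result directly. Proof: the
inequality of Cauchy and Schwarz; for most pairs `a, a'` the difference `F(a, b) - F(a', b)` is small for few `b`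
(`Pool.Agent.U449.BV`).
-/

set_option autoImplicit false

namespace Pool.Agent.Results.MP_7de521_nt.MixedPolynomialsPadic

open Module
open Pool.Agent.U449.BV (RareV OnProductsW NearMatrix on_matrices_sets ncard_of_sets coordinates)

/-- A number field of degree `n` and `N` elements such that `p` and their conjugates are multiplicatively independent. -/
structure Data (p : ℕ) [Fact p.Prime] (n N : ℕ) where
  /-- the number field -/
  K : Type
  /-- it is a field -/
  field : Field K
  /-- it is a number field -/
  numberField : NumberField K
  /-- it has degree `n` -/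
  degree : finrank ℚ K = n
  /-- the elements -/
  γ : Fin N → Kˣ
  /-- `p` and their conjugates are multiplicatively independent -/
  independent : PadicAlmostAllSubgroups.IndependentConjugates p K γ

/-- A number field of degree `n` and `N` admissible elements of norm one. -/
structure Data₁ (n N : ℕ) where
  /-- the number field -/
  K : Type
  /-- it is a field -/
  field : Field K
  /-- it is a number field -/
  numberField : NumberField K
  /-- it has degree `n` -/
  degree : finrank ℚ K = n
  /-- the elements -/
  γ : Fin N → Kˣ
  /-- they are admissible -/
  admissible : NormOneToriPadic.Admissible K γ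

/-- Any `s ≤ n` multiplicatively independent elements of the group generated by the `∏_x γ_x ^ (m_{i x})` are independent over
`ℤ_p` in `(ℚ_p ⊗ K)ˣ`. -/
def Expected {p : ℕ} [Fact p.Prime] {n l N : ℕ} (D : Data p n N) (m : Fin l → Fin N → ℤ) : Prop :=
  letI := D.field
  letI := D.numberField
  PadicAlmostAllSubgroups.ExpectedForSubgroups p D.K D.γ m

/-- Any `s ≤ n - 1` multiplicatively independent elements of the group generated by the `∏_x γ_x ^ (m_{i x})` are independent over
`ℤ_p` in `(ℚ_p ⊗ K)ˣ`. -/
def Expected₁ (p : ℕ) [Fact p.Prime] {n l N : ℕ} (D : Data₁ n N) (m : Fin l → Fin N → ℤ) : Prop :=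
  letI := D.field
  letI := D.numberField
  NormOneToriPadic.ExpectedPadic p D.K D.γ m

/-- **Theorem.** Let `n` be a degree and `l ≥ 1`. There is `c` such that for all primes `p`, all `N ≥ c` and `κ ≥ 0` the property that
ALL matrices `m` near the value (up to `X ^ κ` in all entries) are as expected holds for almost all values of vector functions of two
variables with few coincidences, on arbitrary finite sets of at least `X ^ δ` elements, `(l - 1) N + c + l N κ < δ ≤ l N`, uniformly in
the number field of degree `n` and in the `γ_x`, for `R_{K/ℚ}(G_m)` and for the norm one torus.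
The tuples of the least residues modulo a prime of the coordinates (with respect to a basis over the prime field) of
`f(a, b) + g(a) + h(b)` in a finite field are such a function, with `X` the prime, for all polynomials `f` over this
field with a monomial which contains both variables, arbitrary functions `g` and `h`, and arbitrary finite subsets. -/
theorem result :
    (∀ n l : ℕ, 1 ≤ l → ∃ c : ℕ, ∀ (p : ℕ) [Fact p.Prime] (N : ℕ), c ≤ N → ∀ κ : ℝ, 0 ≤ κ →
      OnProductsW (l * N) ((((l - 1) * N + c : ℕ) : ℝ) + ((l * N : ℕ) : ℝ) * κ) κ
        (fun D : Data p n N => NearMatrix (Expected D)) ∧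
      OnProductsW (l * N) ((((l - 1) * N + c : ℕ) : ℝ) + ((l * N : ℕ) : ℝ) * κ) κ
        (fun D : Data₁ n N => NearMatrix (Expected₁ p D))) ∧
    ∀ (p : ℕ) [Fact p.Prime] (k : ℕ) (K : Type) [Field K] [Algebra (ZMod p) K] (e : Module.Basis (Fin k) (ZMod p) K)
      (d : ℕ) (f : MvPolynomial (Fin 2) K), f.totalDegree ≤ d → (∃ m ∈ f.support, m 0 ≠ 0 ∧ m 1 ≠ 0) →
      ∀ (g h : K → K) (A B : Finset K),
        RareV d A B (fun a b i => (((e.repr (MvPolynomial.eval ![a, b] f + g a + h b) i).val : ℕ) : ℝ)) := by
  refine ⟨fun n l hl => ?_, coordinates⟩
  obtain ⟨c₁, h₁⟩ := PadicAlmostAllSubgroups.result n l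
  obtain ⟨c₂, h₂⟩ := NormOneToriPadic.result n l
  refine ⟨c₁ + c₂, fun p _ N hN κ hκ => ⟨?_, ?_⟩⟩
  · obtain ⟨C, hC⟩ := h₁ p N
    refine on_matrices_sets hl hN _ hκ (Nat.cast_nonneg C) (fun D T hT => ?_)
    letI := D.field
    letI := D.numberField
    refine (ncard_of_sets (hC D.K D.degree D.γ D.independent) T).trans ?_
    have h1 : (1 : ℝ) ≤ ((2 * T + 1 : ℕ) : ℝ) := by exact_mod_cast Nat.le_add_left 1 (2 * T)
    exact mul_le_mul_of_nonneg_left (pow_le_pow_right₀ h1 (by omega)) (Nat.cast_nonneg C)
  · obtain ⟨C, hC⟩ := h₂ p N
    refine on_matrices_sets hl hN _ hκ (Nat.cast_nonneg C) (fun D T hT => ?_)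
    letI := D.field
    letI := D.numberField
    refine (ncard_of_sets (hC D.K D.degree D.γ D.admissible) T).trans ?_
    have h1 : (1 : ℝ) ≤ ((2 * T + 1 : ℕ) : ℝ) := by exact_mod_cast Nat.le_add_left 1 (2 * T)
    exact mul_le_mul_of_nonneg_left (pow_le_pow_right₀ h1 (by omega)) (Nat.cast_nonneg C)

end Pool.Agent.Results.MP_7de521_nt.MixedPolynomialsPadic
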